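import Pool.Agent.Lib.MP_8468cd_lc.Main

namespace Pool.Agent.Results.MP_8468cd_lc.AnyTopology

open Pool.Agent.Lib.MP_8468cd_lc
open scoped ContDiff Manifold

/-- For the smooth topology, and for every Polish topology in which evaluation is continuous,
topological conjugacy is Borel on a dense `Gδ` set of smooth diffeomorphisms. -/
theorem result (E : Type) [NormedAddCommGroup E] [NormedSpace ℝ E] [FiniteDimensional ℝ E]
    (M : Type) [TopologicalSpace M] [ChartedSpace E M] [IsManifold 𝓘(ℝ, E) ∞ M] [CompactSpace M]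
    [T2Space M] [t : TopologicalSpace (Diff E M)]
    (ht : t = tau E M ∨ (PolishSpace (Diff E M) ∧ Continuous fun p : Diff E M × M => p.1 p.2)) :
    ∃ G : Set (Diff E M), IsGδ G ∧ Dense G ∧ @MeasurableSet (G × G) (borel (G × G))
      {p | ∃ h : M ≃ₜ M, ∀ z, h (p.1.1 z) = p.2.1 (h z)} := by
  have key : ∃ G : Set (Diff E M), IsGδ G ∧ Dense G ∧
      @MeasurableSet _ (borel (Diff E M × Diff E M))
        {p | p.1 ∈ G ∧ p.2 ∈ G ∧ ∃ h : M ≃ₜ M, ∀ z, h (p.1 z) = p.2 (h z)} := by
    rcases ht with rfl | ⟨h1, h2⟩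
    · exact main
    · haveI : SecondCountableTopology M := ChartedSpace.secondCountable_of_sigmaCompact E M
      letI := TopologicalSpace.metrizableSpaceMetric M
      letI := TopologicalSpace.upgradeIsCompletelyMetrizable (Diff E M)
      exact generic_conj (f := fun g : Diff E M => (⟨g, g.continuous⟩ : C(M, M)))
        (ContinuousMap.continuous_of_continuous_uncurry _ h2)
  obtain ⟨G, h1, h2, h3⟩ := key
  refine ⟨G, h1, h2, ?_⟩
  have c : Continuous fun p : G × G => ((p.1.1, p.2.1) : Diff E M × Diff E M) := by fun_prop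
  convert c.borel_measurable h3 using 1
  ext p
  simp

end Pool.Agent.Results.MP_8468cd_lc.AnyTopology
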